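import Pool.Agent.Y17.N.Fin
import Pool.Agent.Y17.N.Mat

/-!
The rank form of the Birch and Swinnerton-Dyer conjecture (with order of vanishing and rank both
equal to `0`) for the quadratic twists `E_D` of the non-CM curve
`X_0(14) : y² = x³ + 5805 x - 285714` by NEGATIVE discriminants `D = - q p_1 ⋯ p_k`, where
`p_1, …, p_k` are ARBITRARILY MANY primes which split in the `2`-division field `ℚ(√-7)` and `q` is
a prime `≡ 3 mod 8` inert there, whenever the matrix over `𝔽₂` which governs the `2`-isogeny Selmer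
groups is nonsingular; for every set `{p_1, …, p_k}` there are infinitely many such `q`.
-/

set_option autoImplicit false

open Finset

namespace Pool.Agent.Results.MP_696deb_nt.NegTwistsManySplitPrimes

/-- coefficients of the twist `E_D : y² = x³ + A D x + B D` of `X_0(14)` -/
def A (D : ℤ) : ℤ := 5805 * D ^ 2

/-- coefficients of the twist `E_D : y² = x³ + A D x + B D` of `X_0(14)` -/
def B (D : ℤ) : ℤ := -285714 * D ^ 3

/-- number of points of `E_D` over `ZMod p`, the point at infinity included -/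
noncomputable def N (D : ℤ) (p : ℕ) : ℕ :=
  1 + Nat.card {z : ZMod p × ZMod p // z.2 ^ 2 = z.1 ^ 3 + (A D : ZMod p) * z.1 + (B D : ZMod p)}

/-- the conclusion of the frozen statement for `y² = x³ + a x + b`, together with the fact that the
order of vanishing and the rank are both `0` -/
def BSDRankZero (a b : ℤ) : Prop :=
  4 * a ^ 3 + 27 * b ^ 2 ≠ 0 ∧
    ∃ F : ℂ → ℂ, Differentiable ℂ F ∧
      (∀ s : ℂ, (3 : ℝ) / 2 < s.re →
        HasProd
          (fun p : ℕ => open Classical in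
            if p.Prime ∧ ¬ ((p : ℤ) ∣ 2 * (-4 * a ^ 3 - 27 * b ^ 2)) then
              (1 - ((p : ℂ) - (Nat.card {q : ZMod p × ZMod p //
                  q.2 ^ 2 = q.1 ^ 3 + (a : ZMod p) * q.1 + (b : ZMod p)} : ℂ))
                  * (p : ℂ) ^ (-s) + (p : ℂ) ^ (1 - 2 * s))⁻¹
            else 1)
          (F s)) ∧
      analyticOrderAt F 1 =
        ((Module.finrank ℤ
          (WeierstrassCurve.Affine.Point
            (WeierstrassCurve.toAffine
              ({ a₁ := 0, a₂ := 0, a₃ := 0, a₄ := (a : ℚ), a₆ := (b : ℚ) } :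
                WeierstrassCurve ℚ))) : ℕ) : ℕ∞) ∧
      Module.finrank ℤ
        (WeierstrassCurve.Affine.Point
          (WeierstrassCurve.toAffine
            ({ a₁ := 0, a₂ := 0, a₃ := 0, a₄ := (a : ℚ), a₆ := (b : ℚ) } :
              WeierstrassCurve ℚ))) = 0

/-- primes congruent to `3` modulo `8` that are inert in `ℚ(√-7)` -/
def Inert3 (q : ℕ) : Prop := q.Prime ∧ q % 8 = 3 ∧ (q % 7 = 3 ∨ q % 7 = 5 ∨ q % 7 = 6)

/-- primes congruent to `1` modulo `8` that split in `ℚ(√-7)` -/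
def Split (p : ℕ) : Prop := p.Prime ∧ p % 8 = 1 ∧ (p % 7 = 1 ∨ p % 7 = 2 ∨ p % 7 = 4)

open Classical in
/-- the matrix over `𝔽₂` with rows and columns indexed by the primes in `P`: off the diagonal the
entry at `(p, p')` is `1` if `p'` is not a square modulo `p` and `0` otherwise; on the diagonal it
is the number of the primes in `P` different from `p` which are not squares modulo `p`, plus `1` if
the number of points of `E_m` modulo `p` is not divisible by `8` -/
noncomputable def R (P : Finset ℕ) (m : ℤ) : Matrix P P (ZMod 2) := Matrix.of fun i j =>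
  if i = j then
    (((P.filter fun p' : ℕ => p' ≠ (i : ℕ) ∧ ¬ IsSquare (p' : ZMod (i : ℕ))).card : ZMod 2) +
      if 8 ∣ N m (i : ℕ) then 0 else 1)
  else if IsSquare (((j : ℕ)) : ZMod (i : ℕ)) then 0 else 1

theorem result (P : Finset ℕ) (hP : ∀ p ∈ P, Split p) :
    (∀ q : ℕ, Inert3 q → (R P (-(q : ℤ))).det ≠ 0 →
      BSDRankZero (A (-((q : ℤ) * ∏ p ∈ P, (p : ℤ)))) (B (-((q : ℤ) * ∏ p ∈ P, (p : ℤ))))) ∧
    {q : ℕ | Inert3 q ∧ (R P (-(q : ℤ))).det ≠ 0}.Infinite := by
  classical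
  have hN : ∀ (m : ℤ) (p : ℕ), N m p = Y687.cnt (5805 * m ^ 2) (-285714 * m ^ 3) p + 1 :=
    fun m p => by
      unfold N Y687.cnt A B
      rw [add_comm]
  have hR : ∀ m : ℤ, R P m = Y17.N.matC P (fun p => 8 ∣ N m p) := by
    intro m
    unfold R Y17.N.matC
    ext i j
    simp only [Matrix.of_apply]
    by_cases hij : i = j
    · rw [if_pos hij, if_pos hij]
      congr 1
      by_cases h8 : 8 ∣ N m i
      · rw [if_pos h8, if_pos h8]
      · rw [if_neg h8, if_neg h8]
    · rw [if_neg hij, if_neg hij]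
  have hP' : ∀ p ∈ P, Y17.N.Sp p := hP
  have hdet : ∀ q : ℕ, Inert3 q →
      ((R P (-(q : ℤ))).det ≠ 0 ↔ Odd (Z700.Yd Z700.lres (Y687.N.xrZ (-q)) P)) := by
    intro q hq
    rw [hR]
    refine Y17.N.matC_iff hP fun p hp => ?_
    rw [hN, ← Y17.N.rtz_iff (hP' p hp) hq]
    unfold Y687.N.xrZ
    by_cases h : Y687.N.RtZ (-(q : ℤ)) p
    · rw [if_pos h]; exact ⟨fun _ => h, fun _ => odd_one⟩
    · rw [if_neg h]; exact ⟨fun h' => absurd h' (by decide), fun h' => absurd h' h⟩
  refine ⟨fun q hq hd => ?_, ?_⟩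
  · obtain ⟨⟨f, hf, hfp, hf1⟩, hfin⟩ := Y17.N.weak Y17.N.f_BIL Y17.N.f_T8 Y17.N.f_INDQS hq hP'
      ((hdet q hq).1 hd)
    have hM : (Z700.pr P : ℤ) * (-(q : ℤ)) = -((q : ℤ) * ∏ p ∈ P, (p : ℤ)) := by
      unfold Z700.pr
      push_cast
      ring
    rw [hM] at hfp hfin
    obtain ⟨F, h1, h2, h3, h4⟩ := Y687.rankBSD hf hfp hf1 hfin
    refine ⟨?_, F, h1, h2, ?_, h4⟩
    · have e : 4 * A (-((q : ℤ) * ∏ p ∈ P, (p : ℤ))) ^ 3 +
          27 * B (-((q : ℤ) * ∏ p ∈ P, (p : ℤ))) ^ 2 =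
          (4 * 5805 ^ 3 + 27 * 285714 ^ 2) * ((q : ℤ) * ∏ p ∈ P, (p : ℤ)) ^ 6 := by
        unfold A B
        ring
      rw [e]
      refine mul_ne_zero (by norm_num) (pow_ne_zero 6 (mul_ne_zero ?_ ?_))
      · exact_mod_cast hq.1.ne_zero
      · exact Finset.prod_ne_zero_iff.2 fun r hr => by exact_mod_cast (hP r hr).1.ne_zero
    · unfold A B
      rw [h3, h4]
      rfl
  · refine (Y687.N.inf_q P hP).mono ?_
    rintro q ⟨h1, h2⟩
    exact ⟨h1, (hdet q h1).2 h2⟩

end Pool.Agent.Results.MP_696deb_nt.NegTwistsManySplitPrimes
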